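import Pool.Agent.H678R3.BSD.Unif

/-!
# The Birch–Swinnerton-Dyer product in families with marked points, for all `y` at once

For the cubic `P = t³ + a t² + b t + c` with `P(0) = V`, `P(1) = W` (so `c = V`,
`b = W - 1 - a - V`) the families are: `(V, W) = (v, w)` (`j = 0`), `(v², w)` (`j = 1`) and
`(v², w²)` (`j = 2`), with parameters `n = (a, v, w)`; the curve `y² = P(t)` has `j` marked
integral points `(0, v)`, `(1, w)`.  `FP j n y` is the product of `#C(F_p) / p` over the good primes
`p ≤ y`.  For all members of the family but a proportion `O((log x₀) ^ (-ε²/2))` it lies between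
`(log y) ^ (j + 1/2 - ε)` and `(log y) ^ (j + 1/2 + ε)` simultaneously for all `y` in `[x₀, X]`, as
soon as the sides of the cube of the parameters are at least the product of the primes up to `X`.
-/

set_option autoImplicit false

open Finset Pool.Agent.H678R3.BSD

namespace Pool.Agent.Results.MP_cd906c_nt.FamilyUniform

open Classical in
theorem result (j : ℕ) (hj : j ≤ 2) (ε : ℝ) (hε : 0 < ε) :
    ∃ C : ℝ, 0 < C ∧ ∀ x₀ X : ℕ, 2 ≤ x₀ → ∀ H : ℕ, primorial X ≤ H →
      (((boxH (H : ℤ)).filter fun n => ∃ y ∈ Finset.Icc x₀ X,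
        ¬ (Real.log y ^ ((j : ℝ) + 1 / 2 - ε) ≤ FP j n y ∧
          FP j n y ≤ Real.log y ^ ((j : ℝ) + 1 / 2 + ε))).card : ℝ) ≤
        C * Real.log x₀ ^ (-(ε ^ 2 / 2)) * (H : ℝ) ^ 3 :=
  uniform j hj ε hε

end Pool.Agent.Results.MP_cd906c_nt.FamilyUniform
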