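import Pool.Agent.H438R3.BSD.NF3

/-!
# Birch and Swinnerton-Dyer products over number fields: one-sided bounds

Let `E : y² = x³ + a x + b` be an elliptic curve over a number field `K` with integral coefficients,
`F` the entire continuation of its (incomplete) `L`-function, `m = ord_{s=1} F`, and `EP(x)` the
product of `#E(k_v) / q_v` over the places `v` with `q_v ≤ x` not dividing twice the discriminant.
Then:

1. for every `κ < m` the logarithmic averages of `log EP(n) - κ log log n` (hence these numbers
themselves) are unbounded above; if `F` has a zero with `Re s > 1`, this holds for all `κ`;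

2. if `F` has no real zero greater than `1`, then for every `κ > m` these averages are
unbounded below; if moreover it has some zero with `Re s > 1`, this holds for all `κ`.

So an upper bound `EP(x) = O((log x) ^ κ)`, even in logarithmic average, implies the Riemann
hypothesis for `L(E/K, s)` and `ord_{s=1} L(E/K, s) ≤ κ`.

The sharp bound for the numbers of points is `weil_sharp` of the starting file
`Pool/Agent/H341R2/WeilSharp.lean`; the counting of places above a rational prime is from
`Pool/Agent/H921R2/TatePole/Base.lean`.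
-/

set_option autoImplicit false

open Filter NumberField

namespace Pool.Agent.Results.MP_cd906c_nt.NumberFieldProducts

open Pool.Agent.H438R3.BSD.NF

/-- See the introduction. -/
theorem result (K : Type) [Field K] [NumberField K] (a b : 𝓞 K)
    (_hab : 4 * a ^ 3 + 27 * b ^ 2 ≠ 0) (F : ℂ → ℂ) (hF : IsL a b F) :
    ∃ m : ℕ, analyticOrderAt F 1 = m ∧
    (∀ κ : ℝ, (κ < m ∨ ∃ ρ : ℂ, 1 < ρ.re ∧ F ρ = 0) → ∀ C : ℝ,
      (∃ᶠ x : ℕ in atTop, C < LA a b κ x) ∧
      ∃ᶠ x : ℕ in atTop, C * Real.log x ^ κ < EP a b x) ∧
    ((∀ σ : ℝ, 1 < σ → F σ ≠ 0) →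
      ∀ κ : ℝ, ((m : ℝ) < κ ∨ ∃ ρ : ℂ, 1 < ρ.re ∧ F ρ = 0) → ∀ C : ℝ, 0 < C →
      (∃ᶠ x : ℕ in atTop, LA a b κ x < -C) ∧
      ∃ᶠ x : ℕ in atTop, EP a b x < C * Real.log x ^ κ) :=
  main a b hF

end Pool.Agent.Results.MP_cd906c_nt.NumberFieldProducts
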